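import Mathlib

set_option autoImplicit false

namespace Pool.Agent.Results.MP_f0f309_al.NoOrder

variable {n : ℕ}

open Classical in
/-- the GIM determined by the strict linear order r -/
noncomputable def gim (B : Matrix (Fin n) (Fin n) ℤ) (r : Fin n → Fin n → Prop) (i j : Fin n) : ℤ :=
  if i = j then 2 else if r i j then B i j else -B i j

/-- an oriented chordless cycle of length e + 3, indices read cyclically -/
def Cyc (B : Matrix (Fin n) (Fin n) ℤ) {e : ℕ} (c : Fin (e + 3) → Fin n) : Prop :=
  Function.Injective c ∧ (∀ j k, j ≠ k → (B (c j) (c k) ≠ 0 ↔ j = k + 1 ∨ k = j + 1)) ∧
    ((∀ j, 0 < B (c j) (c (j + 1))) ∨ ∀ j, B (c j) (c (j + 1)) < 0)

def B0 : Matrix (Fin 8) (Fin 8) ℤ :=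
  !![0, 0, 1, -1, 0, 0, 1, -1; 0, 0, -1, 1, 1, 0, 0, -1; -1, 1, 0, 0, 0, 1, -1, 0; 1, -1, 0, 0, 1, -1, -1, 1; 0, -1, 0, -1, 0, 1, 1, 0; 0, 0, -1, 1, -1, 0, 0, 1; -1, 0, 1, 1, -1, 0, 0, -1; 1, 1, 0, -1, 0, -1, 1, 0]

open Classical in
lemma cnt (r : Fin 8 → Fin 8 → Prop) (f : Fin 8 → ℕ) (hf : ∀ i j, r i j ↔ f i < f j) {e : ℕ}
    (c : Fin (e + 3) → Fin 8) (h : ∀ j, B0 (c j) (c (j + 1)) = 1 ∧ c j ≠ c (j + 1)) :
    (Finset.univ.filter fun j => 0 < gim B0 r (c j) (c (j + 1))).card =
      ∑ j, if f (c j) < f (c (j + 1)) then 1 else 0 := by
  rw [Finset.card_filter]
  refine Finset.sum_congr rfl fun j _ => ?_
  simp only [gim, (h j).1, (h j).2, if_false, hf]
  by_cases hh : f (c j) < f (c (j + 1)) <;> simp [hh]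

open Classical in
theorem result : ∃ (n : ℕ) (B : Matrix (Fin n) (Fin n) ℤ), B.transpose = -B ∧
    ∀ r : Fin n → Fin n → Prop, IsStrictTotalOrder (Fin n) r →
      ∃ (e : ℕ) (c : Fin (e + 3) → Fin n), Cyc B c ∧
        Even (Finset.univ.filter fun j => 0 < gim B r (c j) (c (j + 1))).card := by
  refine ⟨8, B0, by decide, fun r hr => ?_⟩
  by_contra hn
  push Not at hn
  let f : Fin 8 → ℕ := fun i => (Finset.univ.filter fun j => r j i).card
  have h1 : ∀ i j, r i j → f i < f j := fun i j h => Finset.card_lt_card
    ⟨fun k hk => by simpa using trans_of r (by simpa using hk) h,
      fun hs => irrefl_of r i (by simpa using hs (x := i) (by simpa using h))⟩
  have hf : ∀ i j, r i j ↔ f i < f j := fun i j => ⟨h1 i j, fun h => by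
    rcases trichotomous_of r i j with h' | rfl | h'
    · exact h'
    · omega
    · have := h1 j i h'; omega⟩
  have hne : ∀ i j, i ≠ j → f i ≠ f j := fun i j h e => by
    rcases trichotomous_of r i j with h' | h' | h'
    · have := h1 _ _ h'; omega
    · exact h h'
    · have := h1 _ _ h'; omega
  have c0 := hn 0 ![1, 3, 7] ⟨by decide, by decide, by decide⟩
  rw [cnt r f hf _ (by decide), Nat.even_iff, Fin.sum_univ_three] at c0
  replace c0 : ¬ ((if f 1 < f 3 then 1 else 0) + (if f 3 < f 7 then 1 else 0) + (if f 7 < f 1 then 1 else 0)) % 2 = 0 := c0
  have c1 := hn 0 ![3, 4, 5] ⟨by decide, by decide, by decide⟩
  rw [cnt r f hf _ (by decide), Nat.even_iff, Fin.sum_univ_three] at c1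
  replace c1 : ¬ ((if f 3 < f 4 then 1 else 0) + (if f 4 < f 5 then 1 else 0) + (if f 5 < f 3 then 1 else 0)) % 2 = 0 := c1
  have c2 := hn 0 ![3, 4, 6] ⟨by decide, by decide, by decide⟩
  rw [cnt r f hf _ (by decide), Nat.even_iff, Fin.sum_univ_three] at c2
  replace c2 : ¬ ((if f 3 < f 4 then 1 else 0) + (if f 4 < f 6 then 1 else 0) + (if f 6 < f 3 then 1 else 0)) % 2 = 0 := c2
  have c3 := hn 0 ![3, 7, 6] ⟨by decide, by decide, by decide⟩
  rw [cnt r f hf _ (by decide), Nat.even_iff, Fin.sum_univ_three] at c3
  replace c3 : ¬ ((if f 3 < f 7 then 1 else 0) + (if f 7 < f 6 then 1 else 0) + (if f 6 < f 3 then 1 else 0)) % 2 = 0 := c3
  have c4 := hn 1 ![0, 2, 1, 3] ⟨by decide, by decide, by decide⟩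
  rw [cnt r f hf _ (by decide), Nat.even_iff, Fin.sum_univ_four] at c4
  replace c4 : ¬ ((if f 0 < f 2 then 1 else 0) + (if f 2 < f 1 then 1 else 0) + (if f 1 < f 3 then 1 else 0) + (if f 3 < f 0 then 1 else 0)) % 2 = 0 := c4
  have c5 := hn 1 ![0, 2, 5, 3] ⟨by decide, by decide, by decide⟩
  rw [cnt r f hf _ (by decide), Nat.even_iff, Fin.sum_univ_four] at c5
  replace c5 : ¬ ((if f 0 < f 2 then 1 else 0) + (if f 2 < f 5 then 1 else 0) + (if f 5 < f 3 then 1 else 0) + (if f 3 < f 0 then 1 else 0)) % 2 = 0 := c5
  have c6 := hn 1 ![1, 4, 5, 7] ⟨by decide, by decide, by decide⟩
  rw [cnt r f hf _ (by decide), Nat.even_iff, Fin.sum_univ_four] at c6
  replace c6 : ¬ ((if f 1 < f 4 then 1 else 0) + (if f 4 < f 5 then 1 else 0) + (if f 5 < f 7 then 1 else 0) + (if f 7 < f 1 then 1 else 0)) % 2 = 0 := c6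
  have c7 := hn 1 ![1, 4, 6, 2] ⟨by decide, by decide, by decide⟩
  rw [cnt r f hf _ (by decide), Nat.even_iff, Fin.sum_univ_four] at c7
  replace c7 : ¬ ((if f 1 < f 4 then 1 else 0) + (if f 4 < f 6 then 1 else 0) + (if f 6 < f 2 then 1 else 0) + (if f 2 < f 1 then 1 else 0)) % 2 = 0 := c7
  have c8 := hn 1 ![2, 5, 7, 6] ⟨by decide, by decide, by decide⟩
  rw [cnt r f hf _ (by decide), Nat.even_iff, Fin.sum_univ_four] at c8
  replace c8 : ¬ ((if f 2 < f 5 then 1 else 0) + (if f 5 < f 7 then 1 else 0) + (if f 7 < f 6 then 1 else 0) + (if f 6 < f 2 then 1 else 0)) % 2 = 0 := c8
  have n02 := hne 0 2 (by decide)
  have n13 := hne 1 3 (by decide)
  have n14 := hne 1 4 (by decide)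
  have n21 := hne 2 1 (by decide)
  have n25 := hne 2 5 (by decide)
  have n30 := hne 3 0 (by decide)
  have n34 := hne 3 4 (by decide)
  have n37 := hne 3 7 (by decide)
  have n45 := hne 4 5 (by decide)
  have n46 := hne 4 6 (by decide)
  have n53 := hne 5 3 (by decide)
  have n57 := hne 5 7 (by decide)
  have n62 := hne 6 2 (by decide)
  have n63 := hne 6 3 (by decide)
  have n71 := hne 7 1 (by decide)
  have n76 := hne 7 6 (by decide)
  generalize f 0 = a0, f 1 = a1, f 2 = a2, f 3 = a3, f 4 = a4, f 5 = a5, f 6 = a6, f 7 = a7 at *
  clear hn h1 hf hne
  by_cases h13 : a1 < a3
  · by_cases h37 : a3 < a7
    · by_cases h71 : a7 < a1
      · clear c0 c1 c2 c3 c4 c5 c6 c7 c8; omega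
      · simp [h13, h37, h71] at c0
    · by_cases h71 : a7 < a1
      · simp [h13, h37, h71] at c0
      · by_cases h76 : a7 < a6
        · by_cases h63 : a6 < a3
          · simp [h37, h76, h63] at c3
          · by_cases h34 : a3 < a4
            · by_cases h46 : a4 < a6
              · simp [h34, h46, h63] at c2
              · by_cases h45 : a4 < a5
                · by_cases h53 : a5 < a3
                  · clear c0 c1 c2 c3 c4 c5 c6 c7 c8; omega
                  · simp [h34, h45, h53] at c1
                · by_cases h53 : a5 < a3
                  · simp [h34, h45, h53] at c1
                  · by_cases h14 : a1 < a4
                    · by_cases h57 : a5 < a7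
                      · simp [h14, h45, h57, h71] at c6
                      · by_cases h62 : a6 < a2
                        · by_cases h21 : a2 < a1
                          · clear c0 c1 c2 c3 c4 c5 c6 c7 c8; omega
                          · simp [h14, h46, h62, h21] at c7
                        · by_cases h21 : a2 < a1
                          · simp [h14, h46, h62, h21] at c7
                          · by_cases h25 : a2 < a5
                            · simp [h25, h57, h76, h62] at c8
                            · by_cases h02 : a0 < a2
                              · by_cases h30 : a3 < a0
                                · simp [h02, h25, h53, h30] at c5
                                · simp [h02, h21, h13, h30] at c4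
                              · by_cases h30 : a3 < a0
                                · simp [h02, h21, h13, h30] at c4
                                · simp [h02, h25, h53, h30] at c5
                    · clear c0 c1 c2 c3 c4 c5 c6 c7 c8; omega
            · by_cases h46 : a4 < a6
              · by_cases h45 : a4 < a5
                · by_cases h53 : a5 < a3
                  · simp [h34, h45, h53] at c1
                  · by_cases h14 : a1 < a4
                    · by_cases h57 : a5 < a7
                      · clear c0 c1 c2 c3 c4 c5 c6 c7 c8; omega
                      · simp [h14, h45, h57, h71] at c6
                    · by_cases h57 : a5 < a7
                      · simp [h14, h45, h57, h71] at c6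
                      · by_cases h62 : a6 < a2
                        · by_cases h21 : a2 < a1
                          · clear c0 c1 c2 c3 c4 c5 c6 c7 c8; omega
                          · simp [h14, h46, h62, h21] at c7
                        · by_cases h21 : a2 < a1
                          · simp [h14, h46, h62, h21] at c7
                          · by_cases h25 : a2 < a5
                            · simp [h25, h57, h76, h62] at c8
                            · by_cases h02 : a0 < a2
                              · by_cases h30 : a3 < a0
                                · simp [h02, h25, h53, h30] at c5
                                · simp [h02, h21, h13, h30] at c4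
                              · by_cases h30 : a3 < a0
                                · simp [h02, h21, h13, h30] at c4
                                · simp [h02, h25, h53, h30] at c5
                · by_cases h53 : a5 < a3
                  · by_cases h14 : a1 < a4
                    · by_cases h57 : a5 < a7
                      · simp [h14, h45, h57, h71] at c6
                      · by_cases h62 : a6 < a2
                        · by_cases h21 : a2 < a1
                          · simp [h14, h46, h62, h21] at c7
                          · by_cases h25 : a2 < a5
                            · clear c0 c1 c2 c3 c4 c5 c6 c7 c8; omega
                            · simp [h25, h57, h76, h62] at c8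
                        · by_cases h21 : a2 < a1
                          · by_cases h25 : a2 < a5
                            · simp [h25, h57, h76, h62] at c8
                            · clear c0 c1 c2 c3 c4 c5 c6 c7 c8; omega
                          · simp [h14, h46, h62, h21] at c7
                    · by_cases h57 : a5 < a7
                      · by_cases h62 : a6 < a2
                        · by_cases h21 : a2 < a1
                          · clear c0 c1 c2 c3 c4 c5 c6 c7 c8; omega
                          · simp [h14, h46, h62, h21] at c7
                        · by_cases h21 : a2 < a1
                          · simp [h14, h46, h62, h21] at c7
                          · by_cases h25 : a2 < a5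
                            · clear c0 c1 c2 c3 c4 c5 c6 c7 c8; omega
                            · simp [h25, h57, h76, h62] at c8
                      · simp [h14, h45, h57, h71] at c6
                  · simp [h34, h45, h53] at c1
              · simp [h34, h46, h63] at c2
        · by_cases h63 : a6 < a3
          · by_cases h34 : a3 < a4
            · by_cases h46 : a4 < a6
              · clear c0 c1 c2 c3 c4 c5 c6 c7 c8; omega
              · simp [h34, h46, h63] at c2
            · by_cases h46 : a4 < a6
              · simp [h34, h46, h63] at c2
              · by_cases h45 : a4 < a5
                · by_cases h53 : a5 < a3
                  · simp [h34, h45, h53] at c1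
                  · by_cases h14 : a1 < a4
                    · by_cases h57 : a5 < a7
                      · clear c0 c1 c2 c3 c4 c5 c6 c7 c8; omega
                      · simp [h14, h45, h57, h71] at c6
                    · by_cases h57 : a5 < a7
                      · simp [h14, h45, h57, h71] at c6
                      · by_cases h62 : a6 < a2
                        · by_cases h21 : a2 < a1
                          · simp [h14, h46, h62, h21] at c7
                          · by_cases h25 : a2 < a5
                            · simp [h25, h57, h76, h62] at c8
                            · by_cases h02 : a0 < a2
                              · by_cases h30 : a3 < a0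
                                · simp [h02, h25, h53, h30] at c5
                                · simp [h02, h21, h13, h30] at c4
                              · by_cases h30 : a3 < a0
                                · simp [h02, h21, h13, h30] at c4
                                · simp [h02, h25, h53, h30] at c5
                        · by_cases h21 : a2 < a1
                          · by_cases h25 : a2 < a5
                            · by_cases h02 : a0 < a2
                              · by_cases h30 : a3 < a0
                                · simp [h02, h21, h13, h30] at c4
                                · simp [h02, h25, h53, h30] at c5
                              · by_cases h30 : a3 < a0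
                                · simp [h02, h25, h53, h30] at c5
                                · simp [h02, h21, h13, h30] at c4
                            · simp [h25, h57, h76, h62] at c8
                          · simp [h14, h46, h62, h21] at c7
                · by_cases h53 : a5 < a3
                  · by_cases h14 : a1 < a4
                    · by_cases h57 : a5 < a7
                      · simp [h14, h45, h57, h71] at c6
                      · by_cases h62 : a6 < a2
                        · by_cases h21 : a2 < a1
                          · by_cases h25 : a2 < a5
                            · simp [h25, h57, h76, h62] at c8
                            · clear c0 c1 c2 c3 c4 c5 c6 c7 c8; omega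
                          · simp [h14, h46, h62, h21] at c7
                        · by_cases h21 : a2 < a1
                          · simp [h14, h46, h62, h21] at c7
                          · by_cases h25 : a2 < a5
                            · by_cases h02 : a0 < a2
                              · by_cases h30 : a3 < a0
                                · simp [h02, h25, h53, h30] at c5
                                · simp [h02, h21, h13, h30] at c4
                              · by_cases h30 : a3 < a0
                                · simp [h02, h21, h13, h30] at c4
                                · simp [h02, h25, h53, h30] at c5
                            · simp [h25, h57, h76, h62] at c8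
                    · by_cases h57 : a5 < a7
                      · by_cases h62 : a6 < a2
                        · by_cases h21 : a2 < a1
                          · simp [h14, h46, h62, h21] at c7
                          · by_cases h25 : a2 < a5
                            · clear c0 c1 c2 c3 c4 c5 c6 c7 c8; omega
                            · simp [h25, h57, h76, h62] at c8
                        · by_cases h21 : a2 < a1
                          · by_cases h25 : a2 < a5
                            · simp [h25, h57, h76, h62] at c8
                            · by_cases h02 : a0 < a2
                              · by_cases h30 : a3 < a0
                                · simp [h02, h21, h13, h30] at c4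
                                · simp [h02, h25, h53, h30] at c5
                              · by_cases h30 : a3 < a0
                                · simp [h02, h25, h53, h30] at c5
                                · simp [h02, h21, h13, h30] at c4
                          · simp [h14, h46, h62, h21] at c7
                      · simp [h14, h45, h57, h71] at c6
                  · simp [h34, h45, h53] at c1
          · simp [h37, h76, h63] at c3
  · by_cases h37 : a3 < a7
    · by_cases h71 : a7 < a1
      · simp [h13, h37, h71] at c0
      · by_cases h76 : a7 < a6
        · by_cases h63 : a6 < a3
          · clear c0 c1 c2 c3 c4 c5 c6 c7 c8; omega
          · simp [h37, h76, h63] at c3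
        · by_cases h63 : a6 < a3
          · simp [h37, h76, h63] at c3
          · by_cases h34 : a3 < a4
            · by_cases h46 : a4 < a6
              · simp [h34, h46, h63] at c2
              · by_cases h45 : a4 < a5
                · by_cases h53 : a5 < a3
                  · clear c0 c1 c2 c3 c4 c5 c6 c7 c8; omega
                  · simp [h34, h45, h53] at c1
                · by_cases h53 : a5 < a3
                  · simp [h34, h45, h53] at c1
                  · by_cases h14 : a1 < a4
                    · by_cases h57 : a5 < a7
                      · simp [h14, h45, h57, h71] at c6
                      · by_cases h62 : a6 < a2
                        · by_cases h21 : a2 < a1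
                          · by_cases h25 : a2 < a5
                            · simp [h25, h57, h76, h62] at c8
                            · clear c0 c1 c2 c3 c4 c5 c6 c7 c8; omega
                          · simp [h14, h46, h62, h21] at c7
                        · by_cases h21 : a2 < a1
                          · simp [h14, h46, h62, h21] at c7
                          · by_cases h25 : a2 < a5
                            · by_cases h02 : a0 < a2
                              · by_cases h30 : a3 < a0
                                · simp [h02, h21, h13, h30] at c4
                                · simp [h02, h25, h53, h30] at c5
                              · by_cases h30 : a3 < a0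
                                · simp [h02, h25, h53, h30] at c5
                                · simp [h02, h21, h13, h30] at c4
                            · simp [h25, h57, h76, h62] at c8
                    · by_cases h57 : a5 < a7
                      · by_cases h62 : a6 < a2
                        · by_cases h21 : a2 < a1
                          · simp [h14, h46, h62, h21] at c7
                          · by_cases h25 : a2 < a5
                            · clear c0 c1 c2 c3 c4 c5 c6 c7 c8; omega
                            · simp [h25, h57, h76, h62] at c8
                        · by_cases h21 : a2 < a1
                          · by_cases h25 : a2 < a5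
                            · simp [h25, h57, h76, h62] at c8
                            · by_cases h02 : a0 < a2
                              · by_cases h30 : a3 < a0
                                · simp [h02, h25, h53, h30] at c5
                                · simp [h02, h21, h13, h30] at c4
                              · by_cases h30 : a3 < a0
                                · simp [h02, h21, h13, h30] at c4
                                · simp [h02, h25, h53, h30] at c5
                          · simp [h14, h46, h62, h21] at c7
                      · simp [h14, h45, h57, h71] at c6
            · by_cases h46 : a4 < a6
              · by_cases h45 : a4 < a5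
                · by_cases h53 : a5 < a3
                  · simp [h34, h45, h53] at c1
                  · by_cases h14 : a1 < a4
                    · clear c0 c1 c2 c3 c4 c5 c6 c7 c8; omega
                    · by_cases h57 : a5 < a7
                      · simp [h14, h45, h57, h71] at c6
                      · by_cases h62 : a6 < a2
                        · by_cases h21 : a2 < a1
                          · by_cases h25 : a2 < a5
                            · simp [h25, h57, h76, h62] at c8
                            · clear c0 c1 c2 c3 c4 c5 c6 c7 c8; omega
                          · simp [h14, h46, h62, h21] at c7
                        · by_cases h21 : a2 < a1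
                          · simp [h14, h46, h62, h21] at c7
                          · by_cases h25 : a2 < a5
                            · by_cases h02 : a0 < a2
                              · by_cases h30 : a3 < a0
                                · simp [h02, h21, h13, h30] at c4
                                · simp [h02, h25, h53, h30] at c5
                              · by_cases h30 : a3 < a0
                                · simp [h02, h25, h53, h30] at c5
                                · simp [h02, h21, h13, h30] at c4
                            · simp [h25, h57, h76, h62] at c8
                · by_cases h53 : a5 < a3
                  · by_cases h14 : a1 < a4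
                    · clear c0 c1 c2 c3 c4 c5 c6 c7 c8; omega
                    · by_cases h57 : a5 < a7
                      · by_cases h62 : a6 < a2
                        · by_cases h21 : a2 < a1
                          · by_cases h25 : a2 < a5
                            · clear c0 c1 c2 c3 c4 c5 c6 c7 c8; omega
                            · simp [h25, h57, h76, h62] at c8
                          · simp [h14, h46, h62, h21] at c7
                        · by_cases h21 : a2 < a1
                          · simp [h14, h46, h62, h21] at c7
                          · by_cases h25 : a2 < a5
                            · simp [h25, h57, h76, h62] at c8
                            · by_cases h02 : a0 < a2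
                              · by_cases h30 : a3 < a0
                                · simp [h02, h21, h13, h30] at c4
                                · simp [h02, h25, h53, h30] at c5
                              · by_cases h30 : a3 < a0
                                · simp [h02, h25, h53, h30] at c5
                                · simp [h02, h21, h13, h30] at c4
                      · simp [h14, h45, h57, h71] at c6
                  · simp [h34, h45, h53] at c1
              · simp [h34, h46, h63] at c2
    · by_cases h71 : a7 < a1
      · by_cases h76 : a7 < a6
        · by_cases h63 : a6 < a3
          · simp [h37, h76, h63] at c3
          · by_cases h34 : a3 < a4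
            · by_cases h46 : a4 < a6
              · simp [h34, h46, h63] at c2
              · by_cases h45 : a4 < a5
                · by_cases h53 : a5 < a3
                  · clear c0 c1 c2 c3 c4 c5 c6 c7 c8; omega
                  · simp [h34, h45, h53] at c1
                · by_cases h53 : a5 < a3
                  · simp [h34, h45, h53] at c1
                  · by_cases h14 : a1 < a4
                    · by_cases h57 : a5 < a7
                      · clear c0 c1 c2 c3 c4 c5 c6 c7 c8; omega
                      · simp [h14, h45, h57, h71] at c6
                    · by_cases h57 : a5 < a7
                      · simp [h14, h45, h57, h71] at c6
                      · by_cases h62 : a6 < a2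
                        · by_cases h21 : a2 < a1
                          · simp [h14, h46, h62, h21] at c7
                          · by_cases h25 : a2 < a5
                            · clear c0 c1 c2 c3 c4 c5 c6 c7 c8; omega
                            · simp [h25, h57, h76, h62] at c8
                        · by_cases h21 : a2 < a1
                          · by_cases h25 : a2 < a5
                            · simp [h25, h57, h76, h62] at c8
                            · by_cases h02 : a0 < a2
                              · by_cases h30 : a3 < a0
                                · simp [h02, h25, h53, h30] at c5
                                · simp [h02, h21, h13, h30] at c4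
                              · by_cases h30 : a3 < a0
                                · simp [h02, h21, h13, h30] at c4
                                · simp [h02, h25, h53, h30] at c5
                          · simp [h14, h46, h62, h21] at c7
            · by_cases h46 : a4 < a6
              · by_cases h45 : a4 < a5
                · by_cases h53 : a5 < a3
                  · simp [h34, h45, h53] at c1
                  · by_cases h14 : a1 < a4
                    · clear c0 c1 c2 c3 c4 c5 c6 c7 c8; omega
                    · by_cases h57 : a5 < a7
                      · clear c0 c1 c2 c3 c4 c5 c6 c7 c8; omega
                      · simp [h14, h45, h57, h71] at c6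
                · by_cases h53 : a5 < a3
                  · by_cases h14 : a1 < a4
                    · clear c0 c1 c2 c3 c4 c5 c6 c7 c8; omega
                    · by_cases h57 : a5 < a7
                      · simp [h14, h45, h57, h71] at c6
                      · by_cases h62 : a6 < a2
                        · by_cases h21 : a2 < a1
                          · by_cases h25 : a2 < a5
                            · clear c0 c1 c2 c3 c4 c5 c6 c7 c8; omega
                            · simp [h25, h57, h76, h62] at c8
                          · simp [h14, h46, h62, h21] at c7
                        · by_cases h21 : a2 < a1
                          · simp [h14, h46, h62, h21] at c7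
                          · by_cases h25 : a2 < a5
                            · simp [h25, h57, h76, h62] at c8
                            · by_cases h02 : a0 < a2
                              · by_cases h30 : a3 < a0
                                · simp [h02, h21, h13, h30] at c4
                                · simp [h02, h25, h53, h30] at c5
                              · by_cases h30 : a3 < a0
                                · simp [h02, h25, h53, h30] at c5
                                · simp [h02, h21, h13, h30] at c4
                  · simp [h34, h45, h53] at c1
              · simp [h34, h46, h63] at c2
        · by_cases h63 : a6 < a3
          · by_cases h34 : a3 < a4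
            · by_cases h46 : a4 < a6
              · clear c0 c1 c2 c3 c4 c5 c6 c7 c8; omega
              · simp [h34, h46, h63] at c2
            · by_cases h46 : a4 < a6
              · simp [h34, h46, h63] at c2
              · by_cases h45 : a4 < a5
                · by_cases h53 : a5 < a3
                  · simp [h34, h45, h53] at c1
                  · by_cases h14 : a1 < a4
                    · clear c0 c1 c2 c3 c4 c5 c6 c7 c8; omega
                    · by_cases h57 : a5 < a7
                      · clear c0 c1 c2 c3 c4 c5 c6 c7 c8; omega
                      · simp [h14, h45, h57, h71] at c6
                · by_cases h53 : a5 < a3
                  · by_cases h14 : a1 < a4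
                    · clear c0 c1 c2 c3 c4 c5 c6 c7 c8; omega
                    · by_cases h57 : a5 < a7
                      · simp [h14, h45, h57, h71] at c6
                      · by_cases h62 : a6 < a2
                        · by_cases h21 : a2 < a1
                          · simp [h14, h46, h62, h21] at c7
                          · by_cases h25 : a2 < a5
                            · simp [h25, h57, h76, h62] at c8
                            · by_cases h02 : a0 < a2
                              · by_cases h30 : a3 < a0
                                · simp [h02, h21, h13, h30] at c4
                                · simp [h02, h25, h53, h30] at c5
                              · by_cases h30 : a3 < a0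
                                · simp [h02, h25, h53, h30] at c5
                                · simp [h02, h21, h13, h30] at c4
                        · by_cases h21 : a2 < a1
                          · by_cases h25 : a2 < a5
                            · by_cases h02 : a0 < a2
                              · by_cases h30 : a3 < a0
                                · simp [h02, h25, h53, h30] at c5
                                · simp [h02, h21, h13, h30] at c4
                              · by_cases h30 : a3 < a0
                                · simp [h02, h21, h13, h30] at c4
                                · simp [h02, h25, h53, h30] at c5
                            · simp [h25, h57, h76, h62] at c8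
                          · simp [h14, h46, h62, h21] at c7
                  · simp [h34, h45, h53] at c1
          · simp [h37, h76, h63] at c3
      · simp [h13, h37, h71] at c0

end Pool.Agent.Results.MP_f0f309_al.NoOrder
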